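import Pool.Agent.W921.RF.Defs

/-! Project RF: enough homomorphisms with periodic values. -/

set_option autoImplicit false

namespace Pool.Agent.W440.RF.Phi

open Pool.Agent.W921.RF

theorem zet_cases (κ : ℕ → ℕ) (d : ℕ) :
    (∃ e, d = ai e ∧ ∃ a : ℤ, zet κ d = Finsupp.single d a) ∨
    (∃ e, d = bi e ∧ (zet κ d = 0 ∨ zet κ d = Finsupp.single (ai e) 1)) ∨
    ((∀ e, d ≠ ai e) ∧ (∀ e, d ≠ bi e) ∧ zet κ d = Finsupp.single d 1) := by
  classical
  by_cases h1 : ∃ e, d = ai e
  · left
    refine ⟨h1.choose, h1.choose_spec, ?_⟩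
    unfold zet
    rw [dif_pos h1]
    split_ifs
    · exact ⟨1, rfl⟩
    · exact ⟨_, rfl⟩
  · right
    by_cases h2 : ∃ e, d = bi e
    · left
      refine ⟨h2.choose, h2.choose_spec, ?_⟩
      unfold zet
      rw [dif_neg h1, dif_pos h2]
      split_ifs
      · exact Or.inl rfl
      · exact Or.inr rfl
    · right
      refine ⟨fun e he => h1 ⟨e, he⟩, fun e he => h2 ⟨e, he⟩, ?_⟩
      unfold zet
      rw [dif_neg h1, dif_neg h2]

open Classical in
/-- the periodic function -/
noncomputable def rp (κ : ℕ → ℕ) (d0 D n m : ℕ) (r : ZMod n) : ZMod m :=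
  if 1 ≤ r.val ∧ r.val ≤ D then ((zet κ r.val d0 : ℤ) : ZMod m)
  else if n ≤ r.val + D then -((zet κ (n - r.val) d0 : ℤ) : ZMod m) else 0

theorem rp_zero (κ : ℕ → ℕ) (d0 D n m : ℕ) (hn : D < n) : rp κ d0 D n m 0 = 0 := by
  unfold rp
  rw [ZMod.val_zero, if_neg (by omega), if_neg (by omega)]

theorem rp_neg (κ : ℕ → ℕ) (d0 D n m : ℕ) (hn : 2 * D < n) (r : ZMod n) :
    rp κ d0 D n m (-r) = - rp κ d0 D n m r := by
  haveI : NeZero n := ⟨by omega⟩
  by_cases hr : r = 0
  · rw [hr, neg_zero, rp_zero κ d0 D n m (by omega), neg_zero]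
  · have hv : (-r).val = n - r.val := by
      rw [ZMod.neg_val, if_neg hr]
    have h0 : 0 < r.val := Nat.pos_of_ne_zero fun h => hr ((ZMod.val_eq_zero r).1 h)
    have h1 : r.val < n := ZMod.val_lt r
    unfold rp
    rw [hv]
    by_cases a1 : r.val ≤ D
    · rw [if_neg (by omega), if_pos (by omega), if_pos (by omega)]
      congr 4
      omega
    · by_cases a2 : n ≤ r.val + D
      · rw [if_pos (by omega), if_neg (by omega), if_pos (by omega), neg_neg]
      · rw [if_neg (by omega), if_neg (by omega), if_neg (by omega), if_neg (by omega), neg_zero]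

open Classical in
/-- the values of the homomorphism -/
noncomputable def vv (κ : ℕ → ℕ) (d0 D n m : ℕ) (i : ℕ) : ZMod m :=
  if i ≤ D then (if i = d0 then 1 else 0)
  else if (∃ e, i = ai e) ∨ (∃ e, i = bi e) then 0 else rp κ d0 D n m (i : ZMod n)

theorem lc_small (κ : ℕ → ℕ) (d0 D n m : ℕ) (k : ℕ) (a : ℤ) (hk : k ≤ D) :
    Finsupp.linearCombination ℤ (vv κ d0 D n m) (Finsupp.single k a)
      = (((Finsupp.single k a : ℕ →₀ ℤ) d0 : ℤ) : ZMod m) := by
  rw [Finsupp.linearCombination_single, vv, if_pos hk]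
  by_cases h : k = d0
  · rw [if_pos h, h, Finsupp.single_eq_same]
    simp
  · rw [if_neg h, Finsupp.single_eq_of_ne (fun h' => h h'.symm)]
    simp

theorem ai_lt_bi (e : ℕ) : ai e < bi e := by
  unfold ai bi
  exact Nat.pow_lt_pow_right (by norm_num) (by omega)

theorem task : S_PHI := by
  classical
  intro κ z hz _ _
  obtain ⟨d0, hd0⟩ : ∃ d0, z d0 ≠ 0 := by
    by_contra hcon
    push Not at hcon
    exact hz (Finsupp.ext fun i => by simpa using hcon i)
  -- the bound
  obtain ⟨B, hB⟩ : ∃ B : ℕ, ∀ i ∈ z.support, i ≤ B := ⟨z.support.sup id, fun i hi =>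
    Finset.le_sup (f := id) hi⟩
  set j : ℕ := 2 * (B + 1) with hj
  set D : ℕ := 4 ^ j with hD
  set n : ℕ := 4 ^ (j + 1) with hn
  set m : ℕ := (z d0).natAbs + 1 with hm
  have hDn : n = 4 * D := by rw [hn, hD, pow_succ]; ring
  have hD0 : 0 < D := by positivity
  have hBD : ∀ i ∈ z.support, i ≤ D := by
    intro i hi
    have h1 := hB i hi
    have h2 : B < 2 ^ B := Nat.lt_two_pow_self
    have h3 : 2 ^ B ≤ 4 ^ j := by
      calc 2 ^ B ≤ 4 ^ B := Nat.pow_le_pow_left (by norm_num) _
        _ ≤ 4 ^ j := Nat.pow_le_pow_right (by norm_num) (by omega)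
    omega
  have hn0 : 0 < n := by positivity
  haveI : NeZero n := ⟨hn0.ne'⟩
  have hm0 : 0 < m := by omega
  -- the positive case
  have hpos : ∀ i : ℕ, 0 < i →
      Finsupp.linearCombination ℤ (vv κ d0 D n m) (zet κ i) = rp κ d0 D n m (i : ZMod n) := by
    intro i hi
    by_cases hiD : i ≤ D
    · have hval : ((i : ZMod n)).val = i := ZMod.val_natCast_of_lt (by omega)
      have hr : rp κ d0 D n m (i : ZMod n) = ((zet κ i d0 : ℤ) : ZMod m) := by
        unfold rp
        rw [hval, if_pos ⟨hi, hiD⟩]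
      rw [hr]
      rcases zet_cases κ i with ⟨e, he, a, ha⟩ | ⟨e, he, h0 | h1⟩ | ⟨_, _, h1⟩
      · rw [ha]; exact lc_small κ d0 D n m i a hiD
      · rw [h0]; simp
      · rw [h1]
        refine lc_small κ d0 D n m (ai e) 1 ?_
        have := ai_lt_bi e
        omega
      · rw [h1]; exact lc_small κ d0 D n m i 1 hiD
    · have hcast : ∀ k : ℕ, j + 1 ≤ k → i = 4 ^ k → rp κ d0 D n m (i : ZMod n) = 0 := by
        intro k hk hik
        have : (i : ZMod n) = 0 := by
          rw [ZMod.natCast_eq_zero_iff, hik, hn]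
          exact pow_dvd_pow 4 hk
        rw [this, rp_zero κ d0 D n m (by omega)]
      have hlt : ∀ k : ℕ, i = 4 ^ k → j < k := by
        intro k hik
        have : 4 ^ j < 4 ^ k := by rw [← hik, ← hD]; omega
        exact (Nat.pow_lt_pow_iff_right (by norm_num)).1 this
      have hvai : ∀ e, D < ai e → vv κ d0 D n m (ai e) = 0 := by
        intro e he
        unfold vv
        rw [if_neg (by omega), if_pos (Or.inl ⟨e, rfl⟩)]
      rcases zet_cases κ i with ⟨e, he, a, ha⟩ | ⟨e, he, h0 | h1⟩ | ⟨n1, n2, h1⟩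
      · rw [ha, Finsupp.linearCombination_single, he, hvai e (by omega), smul_zero, ← he]
        exact (hcast _ (hlt _ he) he).symm
      · rw [h0, map_zero]
        exact (hcast _ (hlt _ he) he).symm
      · rw [h1, Finsupp.linearCombination_single]
        have h2 := hlt _ he
        have h3 : D < ai e := by
          rw [hD]
          unfold ai
          exact Nat.pow_lt_pow_right (by norm_num) (by omega)
        rw [hvai e h3, smul_zero]
        exact (hcast _ h2 he).symm
      · rw [h1, Finsupp.linearCombination_single, one_smul]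
        unfold vv
        rw [if_neg hiD, if_neg]
        rintro (⟨e, he⟩ | ⟨e, he⟩)
        · exact n1 e he
        · exact n2 e he
  refine ⟨n, m, hn0, hm0, (Finsupp.linearCombination ℤ (vv κ d0 D n m)).toAddMonoidHom,
    rp κ d0 D n m, ?_, rp_zero κ d0 D n m (by omega), ?_⟩
  · show Finsupp.linearCombination ℤ (vv κ d0 D n m) z ≠ 0
    rw [Finsupp.linearCombination_apply, Finsupp.sum]
    have hmem : d0 ∈ z.support := Finsupp.mem_support_iff.2 hd0
    rw [Finset.sum_eq_single d0]
    · unfold vv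
      rw [if_pos (hBD d0 hmem), if_pos rfl]
      intro h
      have h2 : ((z d0 : ℤ) : ZMod m) = 0 := by simpa using h
      rw [ZMod.intCast_zmod_eq_zero_iff_dvd] at h2
      have h3 := Int.natAbs_dvd_natAbs.2 h2
      rw [Int.natAbs_natCast] at h3
      have h4 := Nat.le_of_dvd (Int.natAbs_pos.2 hd0) h3
      omega
    · intro i hi hne
      unfold vv
      rw [if_pos (hBD i hi), if_neg hne, smul_zero]
    · intro h
      exact absurd hmem h
  · intro i
    show Finsupp.linearCombination ℤ (vv κ d0 D n m) (rho κ i) = rp κ d0 D n m (i : ZMod n)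
    unfold rho
    rcases lt_trichotomy 0 i with h | h | h
    · rw [if_pos h, hpos i.toNat (by omega)]
      congr 1
      have : ((i.toNat : ℕ) : ℤ) = i := Int.toNat_of_nonneg h.le
      calc ((i.toNat : ℕ) : ZMod n) = (((i.toNat : ℕ) : ℤ) : ZMod n) := by push_cast; rfl
        _ = (i : ZMod n) := by rw [this]
    · subst h
      rw [if_neg (lt_irrefl _), if_neg (lt_irrefl _), map_zero, Int.cast_zero,
        rp_zero κ d0 D n m (by omega)]
    · rw [if_neg (by omega), if_pos h, map_neg, hpos (-i).toNat (by omega), ← rp_neg κ d0 D n m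
        (by omega)]
      congr 1
      have : (((-i).toNat : ℕ) : ℤ) = -i := Int.toNat_of_nonneg (by omega)
      calc -(((-i).toNat : ℕ) : ZMod n) = -((((-i).toNat : ℕ) : ℤ) : ZMod n) := by push_cast; rfl
        _ = (i : ZMod n) := by rw [this]; push_cast; ring

end Pool.Agent.W440.RF.Phi
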